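import Pool.Agent.N240.HK.Stm

/-!
# Project HK: numerical lemmas and the volume of the neighbourhood of a cover
-/

set_option autoImplicit false

open MeasureTheory Set Metric Filter Topology

namespace Pool.Agent.N240.HK

theorem num1 (p : ℕ) {γ C₃ c₄ : ℝ} (hγ : 0 < γ) (hc₄ : 0 < c₄) :
    ∃ j₁ : ℕ, ∀ j : ℕ, j₁ ≤ j → C₃ * ((j : ℝ) + 1) ^ p * ((1 / 2 : ℝ) ^ (j + 1)) ^ (γ / 2) < c₄ := by
  set r : ℝ := (1 / 2 : ℝ) ^ (γ / 2) with hr
  have hr0 : 0 < r := by positivity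
  have hr1 : r < 1 := Real.rpow_lt_one (by norm_num) (by norm_num) (by linarith)
  have h1 := tendsto_pow_const_mul_const_pow_of_abs_lt_one p (r := r) (by rw [abs_of_pos hr0]; exact hr1)
  have h2 : Tendsto (fun j : ℕ => C₃ * (((j + 1 : ℕ) : ℝ) ^ p * r ^ (j + 1))) atTop (𝓝 (C₃ * 0)) :=
    (h1.comp (tendsto_add_atTop_nat 1)).const_mul C₃
  rw [mul_zero] at h2
  have h3 := h2.eventually (gt_mem_nhds hc₄)
  obtain ⟨j₁, hj₁⟩ := eventually_atTop.1 h3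
  refine ⟨j₁, fun j hj => ?_⟩
  have h4 := hj₁ j hj
  have e1 : ((1 / 2 : ℝ) ^ (j + 1)) ^ (γ / 2) = r ^ (j + 1) := by
    rw [hr, ← Real.rpow_natCast, ← Real.rpow_natCast, ← Real.rpow_mul (by norm_num),
      ← Real.rpow_mul (by norm_num), mul_comm]
  rw [e1]
  push_cast at h4
  linarith [h4, mul_assoc C₃ (((j : ℝ) + 1) ^ p) (r ^ (j + 1))]

theorem num2 {d M : ℕ} {δ N C C₃ γ cM lam mj : ℝ} (hδ : 0 < δ) (hδ1 : δ < 1) (hM : 1 ≤ M)
    (hC : 0 < C) (hN : 0 < N) (hlam : 0 ≤ lam) (hmj : 0 ≤ mj) (h1 : mj ≤ C * δ ^ d * N)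
    (h2 : δ ^ d * N ≤ C) (h3 : δ ^ (1 / (M : ℝ)) ≤ cM)
    (h4 : cM * lam ^ (d + 1) * δ ^ d * N ^ (1 - 1 / ((M : ℝ) + 2)) ≤ C₃ * δ ^ γ)
    (h5 : ((d : ℝ) + 1) / M ≤ γ / 2) :
    lam ^ (d + 1) * mj / (C * max C 1) ≤ C₃ * δ ^ (γ / 2) := by
  have hM0 : (0 : ℝ) < M := by exact_mod_cast (by omega : 0 < M)
  set ε : ℝ := 1 / ((M : ℝ) + 2) with hε
  have hε0 : 0 < ε := by positivity
  have hε1 : ε ≤ 1 := by
    rw [hε, div_le_one (by positivity)]; linarith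
  set D : ℝ := max C 1 with hD
  have hD1 : 1 ≤ D := le_max_right _ _
  have hD0 : 0 < D := by linarith
  have hdp : 0 < δ ^ d := by positivity
  -- lower bound of the power of `N`
  have a1 : D⁻¹ * δ ^ ((d : ℝ) * ε) ≤ N ^ (-ε) := by
    have b1 : N ≤ D * (δ ^ d)⁻¹ := by
      rw [← div_eq_mul_inv, le_div_iff₀ hdp]
      calc N * δ ^ d = δ ^ d * N := mul_comm _ _
        _ ≤ C := h2
        _ ≤ D := le_max_left _ _
    calc D⁻¹ * δ ^ ((d : ℝ) * ε) ≤ D ^ (-ε) * δ ^ ((d : ℝ) * ε) := by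
          apply mul_le_mul_of_nonneg_right _ (Real.rpow_nonneg hδ.le _)
          rw [← Real.rpow_neg_one D]
          exact Real.rpow_le_rpow_of_exponent_le hD1 (by linarith)
      _ = (D * (δ ^ d)⁻¹) ^ (-ε) := by
          rw [Real.mul_rpow hD0.le (by positivity), ← Real.rpow_natCast δ d, ← Real.rpow_neg hδ.le,
            ← Real.rpow_mul hδ.le]
          congr 2
          ring
      _ ≤ N ^ (-ε) := Real.rpow_le_rpow_of_nonpos hN b1 (by linarith)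
  have a2 : N ^ (1 - ε) = N * N ^ (-ε) := by
    rw [sub_eq_add_neg, Real.rpow_add hN, Real.rpow_one]
  have a3 : mj / C ≤ δ ^ d * N := by
    rw [div_le_iff₀ hC]; linarith
  have a4 : δ ^ (γ / 2) ≤ δ ^ (1 / (M : ℝ)) * δ ^ ((d : ℝ) * ε) := by
    rw [← Real.rpow_add hδ]
    apply Real.rpow_le_rpow_of_exponent_ge hδ hδ1.le
    have : (d : ℝ) * ε ≤ d / M := by
      rw [hε, mul_one_div]
      apply div_le_div_of_nonneg_left (Nat.cast_nonneg _) hM0 (by linarith)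
    calc 1 / (M : ℝ) + d * ε ≤ 1 / (M : ℝ) + d / M := by linarith
      _ = ((d : ℝ) + 1) / M := by ring
      _ ≤ γ / 2 := h5
  have hγ2 : 0 < δ ^ (γ / 2) := Real.rpow_pos_of_pos hδ _
  have a5 : (lam ^ (d + 1) * mj / (C * D)) * δ ^ (γ / 2) ≤ (C₃ * δ ^ (γ / 2)) * δ ^ (γ / 2) := by
    have e2 : (C₃ * δ ^ (γ / 2)) * δ ^ (γ / 2) = C₃ * δ ^ γ := by
      rw [mul_assoc, ← Real.rpow_add hδ]; congr 2; ring
    rw [e2]
    calc (lam ^ (d + 1) * mj / (C * D)) * δ ^ (γ / 2)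
        ≤ (lam ^ (d + 1) * mj / (C * D)) * (δ ^ (1 / (M : ℝ)) * δ ^ ((d : ℝ) * ε)) :=
          mul_le_mul_of_nonneg_left a4 (by positivity)
      _ = δ ^ (1 / (M : ℝ)) * lam ^ (d + 1) * ((mj / C) * (D⁻¹ * δ ^ ((d : ℝ) * ε))) := by
          field_simp
      _ ≤ cM * lam ^ (d + 1) * ((δ ^ d * N) * N ^ (-ε)) := by
          apply mul_le_mul
          · exact mul_le_mul_of_nonneg_right h3 (by positivity)
          · exact mul_le_mul a3 a1 (by positivity) (by positivity)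
          · positivity
          · exact mul_nonneg ((Real.rpow_nonneg hδ.le _).trans h3) (by positivity)
      _ = cM * lam ^ (d + 1) * δ ^ d * N ^ (1 - ε) := by rw [a2]; ring
      _ ≤ _ := h4
  exact le_of_mul_le_mul_right a5 hγ2

/-- the volume of the balls of one scale -/
theorem upper {d : ℕ} (x : ℕ → Space d) (r : ℕ → ℝ) (J : ℕ → ℕ) {α : ℝ} (hα0 : 0 ≤ α)
    (hr : ∀ i, (1 / 2 : ℝ) ^ (J i + 2) < r i)
    (hsum : ∑' i, ENNReal.ofReal (r i ^ α) ≤ ENNReal.ofReal 1) (j : ℕ) :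
    volume (⋃ i, ⋃ (_ : J i = j), closedBall (x i) (2 * (1 / 2) ^ (j + 1))) ≤
      ENNReal.ofReal (2 ^ (d + 1) * 2 ^ α * (volume (ball (0 : Space d) 1)).toReal *
        ((1 / 2 : ℝ) ^ (j + 1)) ^ ((d : ℝ) + 1 - α)) := by
  set V := volume (ball (0 : Space d) 1) with hV
  have hVt : V ≠ ⊤ := measure_ball_lt_top.ne
  set δ : ℝ := (1 / 2 : ℝ) ^ (j + 1) with hδ
  have hδ0 : 0 < δ := by positivity
  have hfr : Module.finrank ℝ (Space d) = d + 1 := by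
    rw [(WithLp.linearEquiv 2 ℝ (Vec d × ℝ)).finrank_eq, Module.finrank_prod,
      finrank_euclideanSpace_fin, Module.finrank_self]
  have h1 : ∀ i, J i = j → volume (closedBall (x i) (2 * δ)) ≤
      ENNReal.ofReal (2 ^ (d + 1) * 2 ^ α * V.toReal * δ ^ ((d : ℝ) + 1 - α)) *
        ENNReal.ofReal (r i ^ α) := by
    intro i hi
    rw [Measure.addHaar_closedBall volume _ (by positivity), hfr, ← hV,
      ← ENNReal.ofReal_toReal hVt, ← ENNReal.ofReal_mul (by positivity),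
      ← ENNReal.ofReal_mul (by positivity), ENNReal.toReal_ofReal ENNReal.toReal_nonneg]
    apply ENNReal.ofReal_le_ofReal
    have h2 : δ ≤ 2 * r i := by
      have := hr i
      rw [hi, pow_succ] at this
      linarith
    have hri : 0 < r i := lt_trans (by positivity) (hr i)
    have h3 : δ ^ α ≤ 2 ^ α * r i ^ α := by
      rw [← Real.mul_rpow (by norm_num) hri.le]
      exact Real.rpow_le_rpow hδ0.le h2 hα0
    have h4 : (δ : ℝ) ^ (d + 1) = δ ^ ((d : ℝ) + 1 - α) * δ ^ α := by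
      rw [← Real.rpow_add hδ0, ← Real.rpow_natCast]
      congr 1
      push_cast
      ring
    rw [mul_pow, h4]
    have h5 : 0 ≤ δ ^ ((d : ℝ) + 1 - α) := Real.rpow_nonneg hδ0.le _
    have h6 : (0 : ℝ) ≤ V.toReal := ENNReal.toReal_nonneg
    calc 2 ^ (d + 1) * (δ ^ ((d : ℝ) + 1 - α) * δ ^ α) * V.toReal
        ≤ 2 ^ (d + 1) * (δ ^ ((d : ℝ) + 1 - α) * (2 ^ α * r i ^ α)) * V.toReal := by gcongr
      _ = _ := by ring
  calc volume (⋃ i, ⋃ (_ : J i = j), closedBall (x i) (2 * δ))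
      ≤ ∑' i, volume (⋃ (_ : J i = j), closedBall (x i) (2 * δ)) := measure_iUnion_le _
    _ ≤ ∑' i, ENNReal.ofReal (2 ^ (d + 1) * 2 ^ α * V.toReal * δ ^ ((d : ℝ) + 1 - α)) *
        ENNReal.ofReal (r i ^ α) := by
        apply ENNReal.tsum_le_tsum
        intro i
        by_cases h : J i = j
        · simp only [h, iUnion_true]
          exact h1 i h
        · simp [h]
    _ = ENNReal.ofReal (2 ^ (d + 1) * 2 ^ α * V.toReal * δ ^ ((d : ℝ) + 1 - α)) *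
        ∑' i, ENNReal.ofReal (r i ^ α) := ENNReal.tsum_mul_left
    _ ≤ ENNReal.ofReal (2 ^ (d + 1) * 2 ^ α * V.toReal * δ ^ ((d : ℝ) + 1 - α)) *
        ENNReal.ofReal 1 := by gcongr
    _ = _ := by rw [ENNReal.ofReal_one, mul_one]

end Pool.Agent.N240.HK
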