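import Pool.Agent.N240.HK.Est
import Pool.Agent.N240.HK.Num
import Pool.Agent.Y245.Cover

/-!
# Project HK: assembly
-/

set_option autoImplicit false

open MeasureTheory Set Metric Filter Topology

namespace Pool.Agent.N240.HK

open scoped NNReal ENNReal

theorem continuous_linePoint {d : ℕ} (v β : Vec d) : Continuous (fun t : ℝ => linePoint v β t) := by
  unfold linePoint
  exact (WithLp.prod_continuous_toLp 2 (Vec d) ℝ).comp (by fun_prop)

theorem aux1 (k C D n m : ℝ) (hm : m ≠ 0) : k * (C * D * n) = (C / m * k) * (m * D * n) := by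
  field_simp

set_option maxHeartbeats 4000000 in
theorem core (hsep : S_sep) (hshade : S_shade) (hkap : S_kap) (hwin : S_win) (hpig : S_pig)
    (d : ℕ) (hd : 1 ≤ d) :
    ∃ κ : ℝ → ℝ, (∀ δ, 1 ≤ κ δ) ∧ Tendsto κ (𝓝[>] 0) atTop ∧
    ∀ (V : Set (Vec d)) (a : Vec d → Vec d) (K : Set (Space d)), (∀ v ∈ V, ‖v‖ ≤ 1) →
    volume V ≠ 0 → (∀ v ∈ V, volume {t : ℝ | linePoint v (a v) t ∈ K} ≠ 0) →
    (∀ᶠ δ in 𝓝[>] (0 : ℝ), ∃ Z : Finset (Vec d × Vec d), (Z.card : ℝ) * δ ^ d ≤ κ δ ∧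
      ∀ v ∈ V, ∀ w ∈ V, ∃ z ∈ Z, ‖v + w - z.1‖ ≤ δ ∧ ‖a v + a w - z.2‖ ≤ δ) →
    ENNReal.ofReal ((d : ℝ) + 1) ≤ dimH K := by
  classical
  -- the constants of the estimate at one scale
  have hex : ∀ M : ℕ, ∃ c : ℝ, 0 < c ∧ ∀ δ : ℝ, 0 < δ → δ < 1 → ∀ (J' J : Finset (Vec d))
      (a : Vec d → Vec d) (s : ℝ),
      (∀ v ∈ J', ‖v‖ ≤ 1) → |s| ≤ (M : ℝ) → (∀ v ∈ J', ∀ w ∈ J', v ≠ w → δ ≤ ‖dir v - dir w‖) →
      (∃ Z : Finset (Vec d × Vec d), (Z.card : ℝ) ≤ ((M : ℝ) + 1) * J'.card ∧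
        ∀ v ∈ J', ∀ w ∈ J', ∃ z ∈ Z, ‖v + w - z.1‖ ≤ δ ∧ ‖a v + a w - z.2‖ ≤ δ) → J ⊆ J' →
      ∀ (X : Set (Space d)) (lam : ℝ), 0 ≤ lam → lam ≤ 1 →
      (∀ v ∈ J, ENNReal.ofReal (lam * δ ^ d) ≤
        volume (tube δ (dir v) (linePoint v (a v) s) ∩ X)) →
      ENNReal.ofReal (c * lam ^ (d + 1) * δ ^ d * (J.card : ℝ) ^ (1 - 1 / ((M : ℝ) + 2))) ≤
        volume X := fun M =>
    est' d hd (K := (M : ℝ) + 1) (S := M) (ε := 1 / ((M : ℝ) + 2))
      (by have : (0 : ℝ) ≤ M := Nat.cast_nonneg _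
          linarith) (Nat.cast_nonneg _) (by positivity)
      (by rw [div_lt_one (by positivity)]
          have : (0 : ℝ) ≤ M := Nat.cast_nonneg _
          linarith)
  choose c hc hest using hex
  obtain ⟨κ, hκ1, hκt, hκ⟩ := hkap c hc
  refine ⟨κ, hκ1, hκt, ?_⟩
  intro V a K hV1 hV0 hK hZ
  by_contra hlt
  push Not at hlt
  obtain ⟨α, hα1, hα2⟩ := ENNReal.lt_iff_exists_nnreal_btwn.1 hlt
  have hα3 : (α : ℝ) < (d : ℝ) + 1 := by
    have h1 : (α : ℝ≥0∞) = ENNReal.ofReal α := by simp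
    rw [h1] at hα2
    exact (ENNReal.ofReal_lt_ofReal_iff_of_nonneg α.2).1 hα2
  have hα0 : 0 < α := by
    have : (0 : ℝ≥0∞) < α := lt_of_le_of_lt zero_le hα1
    exact_mod_cast this
  set γ : ℝ := (d : ℝ) + 1 - α with hγ
  have hγ0 : 0 < γ := by rw [hγ]; linarith
  -- the window
  obtain ⟨V', s, lam₀, hV'V, hV'0, hlam₀, hV'K⟩ := hwin d V a K hV0 hK
  set lam : ℝ := min lam₀ 1 with hlam
  have hlam0 : 0 < lam := lt_min hlam₀ one_pos
  have hV'K' : ∀ v ∈ V', ENNReal.ofReal lam ≤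
      volume ({t : ℝ | linePoint v (a v) t ∈ K} ∩ Icc (s - 1 / 8) (s + 1 / 8)) := fun v hv =>
    (ENNReal.ofReal_le_ofReal (min_le_left _ _)).trans (hV'K v hv)
  have hV'1 : ∀ v ∈ V', ‖v‖ ≤ 1 := fun v hv => hV1 v (hV'V hv)
  have hV't : volume V' ≠ ⊤ := by
    refine ne_top_of_le_ne_top (b := volume (closedBall (0 : Vec d) 1))
      measure_closedBall_lt_top.ne (measure_mono ?_)
    intro v hv
    rw [mem_closedBall, dist_zero_right]
    exact hV'1 v hv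
  set m₀ : ℝ := (volume V').toReal with hm₀
  have hm₀0 : 0 < m₀ := ENNReal.toReal_pos hV'0 hV't
  have hm₀e : volume V' = ENNReal.ofReal m₀ := (ENNReal.ofReal_toReal hV't).symm
  obtain ⟨C, hC, hsep⟩ := hsep d
  obtain ⟨c₁, hc₁, hshade⟩ := hshade d
  obtain ⟨w, hw0, hw, hpig⟩ := hpig
  set c₂ : ℝ := min 1 (c₁ * w 0 * lam) with hc₂
  have hc₂0 : 0 < c₂ := lt_min one_pos (mul_pos (mul_pos hc₁ (hw0 0)) hlam0)
  set C₃ : ℝ := 2 ^ (d + 1) * 2 ^ (α : ℝ) * (volume (ball (0 : Space d) 1)).toReal with hC₃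
  set c₄ : ℝ := c₂ ^ (d + 1) * (w 0 * m₀) / (C * max C 1) with hc₄
  have hc₄0 : 0 < c₄ := by
    have := hw0 0
    have : 0 < max C 1 := lt_max_of_lt_left hC
    positivity
  obtain ⟨j₁, hj₁⟩ := num1 (2 * (d + 2)) (C₃ := C₃) hγ0 hc₄0
  -- all small scales are good
  obtain ⟨M₀, hM₀⟩ := exists_nat_ge (max (max 1 |s|) (((d : ℝ) + 1) * 2 / γ))
  have hev := (hκ (C / m₀) M₀).and hZ
  obtain ⟨δ₀, hδ₀, hgood⟩ := mem_nhdsGT_iff_exists_Ioo_subset.1 hev
  rw [mem_Ioi] at hδ₀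
  obtain ⟨j₂, hj₂⟩ := exists_pow_lt_of_lt_one hδ₀ (by norm_num : (1 / 2 : ℝ) < 1)
  -- the cover
  haveI : Nonempty (Space d) := ⟨0⟩
  obtain ⟨x, r, hr, hcov, hsum⟩ := Pool.Agent.Y245.Tr.cover_of_dimH_lt hα0 hα1
    (ρ := (1 / 2 : ℝ) ^ (max j₁ j₂ + 2)) (by positivity) one_pos
  have hexJ : ∀ i, ∃ j : ℕ, (1 / 2 : ℝ) ^ (j + 2) < r i ∧ r i ≤ (1 / 2) ^ (j + 1) := by
    intro i
    have hr2 : r i ≤ 1 / 4 := by
      refine (hr i).2.trans ?_
      calc (1 / 2 : ℝ) ^ (max j₁ j₂ + 2) ≤ (1 / 2 : ℝ) ^ 2 :=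
            pow_le_pow_of_le_one (by norm_num) (by norm_num) (by omega)
        _ = 1 / 4 := by norm_num
    obtain ⟨n, hn1, hn2⟩ := exists_nat_pow_near_of_lt_one (hr i).1
      (hr2.trans (by norm_num)) (by norm_num : (0 : ℝ) < 1 / 2) (by norm_num)
    rcases n with _ | n
    · exfalso
      norm_num at hn1
      linarith
    · exact ⟨n, hn1, hn2⟩
  choose J hJ1 hJ2 using hexJ
  obtain ⟨j, hj⟩ := hpig d V' a K s lam hlam0 hV'0 hV't hV'K' x r J hcov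
  set U : Set (Space d) := ⋃ i, ⋃ (_ : J i = j), closedBall (x i) (r i) with hU
  set Vj : Set (Vec d) := {v ∈ V' | ENNReal.ofReal (w j * lam) ≤
    volume ({t : ℝ | linePoint v (a v) t ∈ U} ∩ Icc (s - 1 / 8) (s + 1 / 8))} with hVj
  have hwj := hw0 j
  -- the scale is small
  have hjlarge : max j₁ j₂ < j := by
    have h1 : Vj.Nonempty := by
      rw [Set.nonempty_iff_ne_empty]
      intro h0
      rw [h0, measure_empty, nonpos_iff_eq_zero, mul_eq_zero] at hj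
      rcases hj with h | h
      · rw [ENNReal.ofReal_eq_zero] at h
        linarith
      · exact hV'0 h
    obtain ⟨v, hv⟩ := h1
    by_contra hcon
    push Not at hcon
    have hUe : U = ∅ := by
      rw [Set.eq_empty_iff_forall_notMem]
      intro y hy
      simp only [hU, mem_iUnion] at hy
      obtain ⟨i, hi, _⟩ := hy
      have h2 := hJ1 i
      have h3 := (hr i).2
      rw [hi] at h2
      have h4 : (1 / 2 : ℝ) ^ (max j₁ j₂ + 2) ≤ (1 / 2 : ℝ) ^ (j + 2) :=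
        pow_le_pow_of_le_one (by norm_num) (by norm_num) (by omega)
      linarith
    have h5 := hv.2
    rw [hUe] at h5
    simp only [mem_empty_iff_false, Set.ofPred_false, empty_inter, measure_empty, nonpos_iff_eq_zero,
      ENNReal.ofReal_eq_zero] at h5
    have : 0 < w j * lam := mul_pos hwj hlam0
    linarith
  have hj1 : j₁ ≤ j := by have := le_max_left j₁ j₂; omega
  have hj2 : j₂ ≤ j + 1 := by have := le_max_right j₁ j₂; omega
  set δ : ℝ := (1 / 2 : ℝ) ^ (j + 1) with hδ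
  have hδ0 : 0 < δ := by positivity
  have hδ1 : δ < 1 := pow_lt_one₀ (by norm_num) (by norm_num) (by omega)
  have hδδ₀ : δ < δ₀ := lt_of_le_of_lt
    (pow_le_pow_of_le_one (by norm_num) (by norm_num) hj2) hj₂
  obtain ⟨⟨M, hMM₀, hMκ, hMc⟩, Z, hZ1, hZ2⟩ := hgood ⟨hδ0, hδδ₀⟩
  have hdp : 0 < δ ^ d := by positivity
  have hM₀' : (M₀ : ℝ) ≤ M := by exact_mod_cast hMM₀
  have hM1 : (1 : ℝ) ≤ M := ((le_max_left _ _).trans (le_max_left _ _)).trans (hM₀.trans hM₀')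
  have hMs : |s| ≤ (M : ℝ) := ((le_max_right _ _).trans (le_max_left _ _)).trans (hM₀.trans hM₀')
  have hMd : ((d : ℝ) + 1) * 2 / γ ≤ M := (le_max_right _ _).trans (hM₀.trans hM₀')
  -- separated sets
  obtain ⟨J₁, -, hJ₁V, hJ₁s, hJ₁m, -⟩ := hsep δ hδ0 hδ1 Vj ∅ (fun v hv => hV'1 v hv.1)
    (by simp) (by simp)
  obtain ⟨J', hJ₁J', hJ'V, hJ's, hJ'm, hJ'C⟩ := hsep δ hδ0 hδ1 V' J₁ hV'1
    (fun v hv => (hJ₁V hv).1) hJ₁s
  have hnn : ∀ n : ℕ, 0 ≤ C * δ ^ d * (n : ℝ) := fun n =>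
    mul_nonneg (mul_nonneg hC.le hdp.le) (Nat.cast_nonneg n)
  have hJ'm' : m₀ ≤ C * δ ^ d * J'.card := by
    rw [hm₀e] at hJ'm
    exact (ENNReal.ofReal_le_ofReal_iff (hnn _)).1 hJ'm
  have hJ₁m' : w j * m₀ ≤ C * δ ^ d * J₁.card := by
    have h1 := hj.trans hJ₁m
    rw [hm₀e, ← ENNReal.ofReal_mul hwj.le] at h1
    exact (ENNReal.ofReal_le_ofReal_iff (hnn _)).1 h1
  have hN0 : (0 : ℝ) < J₁.card := by
    by_contra hcon
    have h1 : (J₁.card : ℝ) = 0 := le_antisymm (not_lt.1 hcon) (Nat.cast_nonneg _)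
    rw [h1, mul_zero] at hJ₁m'
    have : 0 < w j * m₀ := mul_pos hwj hm₀0
    linarith
  have hcardZ : (Z.card : ℝ) ≤ ((M : ℝ) + 1) * J'.card := by
    have h1 : (Z.card : ℝ) * δ ^ d * m₀ ≤ ((M : ℝ) * J'.card) * (δ ^ d * m₀) := by
      calc (Z.card : ℝ) * δ ^ d * m₀ ≤ κ δ * m₀ := mul_le_mul_of_nonneg_right hZ1 hm₀0.le
        _ ≤ κ δ * (C * δ ^ d * J'.card) :=
            mul_le_mul_of_nonneg_left hJ'm' (by linarith [hκ1 δ])
        _ = (C / m₀ * κ δ) * (m₀ * δ ^ d * J'.card) := aux1 _ _ _ _ _ hm₀0.ne'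
        _ ≤ M * (m₀ * δ ^ d * J'.card) := mul_le_mul_of_nonneg_right hMκ
            (mul_nonneg (mul_nonneg hm₀0.le hdp.le) (Nat.cast_nonneg _))
        _ = _ := by ring
    have h2 : (Z.card : ℝ) ≤ (M : ℝ) * J'.card := by
      have h3 : (Z.card : ℝ) * (δ ^ d * m₀) ≤ ((M : ℝ) * J'.card) * (δ ^ d * m₀) := by
        calc _ = (Z.card : ℝ) * δ ^ d * m₀ := by ring
          _ ≤ _ := h1
      exact le_of_mul_le_mul_right h3 (by positivity)
    have h4 : (0 : ℝ) ≤ J'.card := Nat.cast_nonneg _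
    linarith
  -- the estimate
  set X : Set (Space d) := ⋃ i, ⋃ (_ : J i = j), closedBall (x i) (2 * (1 / 2) ^ (j + 1)) with hX
  set lam' : ℝ := c₂ / ((j : ℝ) + 1) ^ 2 with hlam'
  have hj0 : (0 : ℝ) ≤ j := Nat.cast_nonneg _
  have hjp : (1 : ℝ) ≤ ((j : ℝ) + 1) ^ 2 := one_le_pow₀ (by linarith)
  have hlam'0 : 0 ≤ lam' := by positivity
  have hlam'1 : lam' ≤ 1 := by
    rw [hlam', div_le_one (by positivity)]
    exact (min_le_left _ _).trans hjp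
  have hkey := hest M δ hδ0 hδ1 J' J₁ a s (fun v hv => hV'1 v (hJ'V hv)) hMs hJ's
    ⟨Z, hcardZ, fun v hv w hw => hZ2 v (hV'V (hJ'V hv)) w (hV'V (hJ'V hw))⟩ hJ₁J' X lam'
    hlam'0 hlam'1 (by
      intro v hv
      have hvj := hJ₁V hv
      set A : Set ℝ := {t : ℝ | linePoint v (a v) t ∈ U} ∩ Icc (s - 1 / 8) (s + 1 / 8) with hA
      have hUm : MeasurableSet U :=
        MeasurableSet.iUnion (fun i => MeasurableSet.iUnion (fun _ => measurableSet_closedBall))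
      have hAm : MeasurableSet A :=
        ((continuous_linePoint v (a v)).measurable hUm).inter measurableSet_Icc
      have h1 := hshade δ hδ0 hδ1 v (a v) s (hV'1 v hvj.1) A X hAm inter_subset_right (by
        rintro t ⟨ht, -⟩ y hy
        simp only [hU, mem_setOf_eq, mem_iUnion] at ht
        obtain ⟨i, hi, hi2⟩ := ht
        simp only [hX, mem_iUnion]
        refine ⟨i, hi, ?_⟩
        rw [mem_closedBall] at hy hi2 ⊢
        have h6 := dist_triangle y (linePoint v (a v) t) (x i)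
        have h7 := hJ2 i
        rw [hi] at h7
        have h8 : dist y (linePoint v (a v) t) ≤ (1 / 2) ^ (j + 1) := hy
        linarith)
      refine le_trans ?_ h1
      calc ENNReal.ofReal (lam' * δ ^ d) ≤ ENNReal.ofReal (c₁ * δ ^ d) * ENNReal.ofReal (w j * lam) := by
            rw [← ENNReal.ofReal_mul (by positivity)]
            apply ENNReal.ofReal_le_ofReal
            have h2 : lam' ≤ c₁ * (w j * lam) := by
              rw [hlam', hw j, div_le_iff₀ (by positivity)]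
              calc c₂ ≤ c₁ * w 0 * lam := min_le_right _ _
                _ = _ := by field_simp
            calc lam' * δ ^ d ≤ c₁ * (w j * lam) * δ ^ d := mul_le_mul_of_nonneg_right h2 hdp.le
              _ = _ := by ring
        _ ≤ ENNReal.ofReal (c₁ * δ ^ d) * volume A := by
            gcongr
            exact hvj.2)
  have hup := upper x r J α.2 hJ1 hsum j
  have hreal : c M * lam' ^ (d + 1) * δ ^ d * (J₁.card : ℝ) ^ (1 - 1 / ((M : ℝ) + 2)) ≤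
      C₃ * δ ^ γ := by
    have h1 := hkey.trans hup
    exact (ENNReal.ofReal_le_ofReal_iff (by positivity)).1 h1
  have hfin := num2 (d := d) (M := M) hδ0 hδ1 (by exact_mod_cast hM1) hC hN0 hlam'0
    (mul_pos hwj hm₀0).le hJ₁m'
    (by
      calc δ ^ d * (J₁.card : ℝ) ≤ δ ^ d * J'.card := by
            apply mul_le_mul_of_nonneg_left _ hdp.le
            exact_mod_cast Finset.card_le_card hJ₁J'
        _ ≤ C := hJ'C) hMc hreal (by
      rw [div_le_iff₀ hγ0] at hMd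
      rw [div_le_iff₀ (by linarith)]
      linarith)
  have hfin2 := hj₁ j hj1
  have e1 : lam' ^ (d + 1) * (w j * m₀) / (C * max C 1) = c₄ / ((j : ℝ) + 1) ^ (2 * (d + 2)) := by
    rw [hlam', hw j, hc₄]
    have hjp' : ((j : ℝ) + 1) ≠ 0 := by positivity
    have hmx : max C 1 ≠ 0 := (lt_max_of_lt_left hC).ne'
    have e2 : ((j : ℝ) + 1) ^ (2 * (d + 2)) = (((j : ℝ) + 1) ^ 2) ^ (d + 1) * ((j : ℝ) + 1) ^ 2 := by
      rw [← pow_mul, ← pow_add]; congr 1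
    rw [e2, div_pow]
    field_simp
  rw [e1, div_le_iff₀ (by positivity)] at hfin
  have e3 : C₃ * δ ^ (γ / 2) * ((j : ℝ) + 1) ^ (2 * (d + 2)) =
      C₃ * ((j : ℝ) + 1) ^ (2 * (d + 2)) * ((1 / 2 : ℝ) ^ (j + 1)) ^ (γ / 2) := by
    rw [hδ]; ring
  rw [e3] at hfin
  linarith

end Pool.Agent.N240.HK
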