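import Mathlib

/-!
# Project HK (helper240): Hausdorff dimension of Kakeya sets whose lines have small sumset; statements

Page MP_b1773a_an.  The notation is that of `Results/MP_b1773a_an/StructuredTubes.lean`.
-/

set_option autoImplicit false

open MeasureTheory Set Metric Filter Topology

namespace Pool.Agent.N240.HK

/-- Euclidean space `ℝ^d`. -/
abbrev Vec (d : ℕ) : Type := EuclideanSpace ℝ (Fin d)

/-- Euclidean space `ℝ^{d+1}`, written as `ℝ^d × ℝ` with the Euclidean norm. -/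
abbrev Space (d : ℕ) : Type := WithLp 2 (Vec d × ℝ)

/-- The closed tube of length `1` and radius `δ` with centre `a` and axis direction `e`. -/
def tube {d : ℕ} (δ : ℝ) (e a : Space d) : Set (Space d) :=
  {y | |inner ℝ (y - a) e| ≤ 1 / 2 ∧ ‖(y - a) - (inner ℝ (y - a) e : ℝ) • e‖ ≤ δ}

/-- The unit vector `(v, 1)/√(1+|v|²)`. -/
noncomputable def dir {d : ℕ} (v : Vec d) : Space d :=
  (√(1 + ‖v‖ ^ 2))⁻¹ • WithLp.toLp 2 (v, (1:ℝ))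

/-- The point of height `h` on the line with slope `v` and position `β`. -/
def linePoint {d : ℕ} (v β : Vec d) (h : ℝ) : Space d := WithLp.toLp 2 (β + h • v, h)

/-- HK/SEP: maximal separated sets of directions. -/
def S_sep : Prop := ∀ d : ℕ, ∃ C : ℝ, 0 < C ∧ ∀ δ : ℝ, 0 < δ → δ < 1 →
  ∀ (V : Set (Vec d)) (J₀ : Finset (Vec d)), (∀ v ∈ V, ‖v‖ ≤ 1) → (J₀ : Set (Vec d)) ⊆ V →
  (∀ v ∈ J₀, ∀ w ∈ J₀, v ≠ w → δ ≤ ‖dir v - dir w‖) →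
  ∃ J : Finset (Vec d), J₀ ⊆ J ∧ (J : Set (Vec d)) ⊆ V ∧
    (∀ v ∈ J, ∀ w ∈ J, v ≠ w → δ ≤ ‖dir v - dir w‖) ∧
    volume V ≤ ENNReal.ofReal (C * δ ^ d * J.card) ∧ δ ^ d * J.card ≤ C

/-- HK/SHADE: a lower bound for the part of a tube in a set. -/
def S_shade : Prop := ∀ d : ℕ, ∃ c : ℝ, 0 < c ∧ ∀ δ : ℝ, 0 < δ → δ < 1 →
  ∀ (v b : Vec d) (s : ℝ), ‖v‖ ≤ 1 → ∀ (A : Set ℝ) (X : Set (Space d)), MeasurableSet A →
  A ⊆ Icc (s - 1 / 8) (s + 1 / 8) → (∀ t ∈ A, closedBall (linePoint v b t) δ ⊆ X) →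
  ENNReal.ofReal (c * δ ^ d) * volume A ≤ volume (tube δ (dir v) (linePoint v b s) ∩ X)

/-- HK/KAP: a slowly growing function. -/
def S_kap : Prop := ∀ c : ℕ → ℝ, (∀ M, 0 < c M) → ∃ κ : ℝ → ℝ, (∀ δ, 1 ≤ κ δ) ∧
  Tendsto κ (𝓝[>] 0) atTop ∧ ∀ (B : ℝ) (M₀ : ℕ), ∀ᶠ δ in 𝓝[>] (0 : ℝ),
    ∃ M : ℕ, M₀ ≤ M ∧ B * κ δ ≤ M ∧ δ ^ (1 / (M : ℝ)) ≤ c M

/-- HK/WIN: a common window of heights. -/
def S_win : Prop := ∀ (d : ℕ) (V : Set (Vec d)) (a : Vec d → Vec d) (K : Set (Space d)),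
  volume V ≠ 0 → (∀ v ∈ V, volume {t : ℝ | linePoint v (a v) t ∈ K} ≠ 0) →
  ∃ (V' : Set (Vec d)) (s lam : ℝ), V' ⊆ V ∧ volume V' ≠ 0 ∧ 0 < lam ∧
    ∀ v ∈ V', ENNReal.ofReal lam ≤
      volume ({t : ℝ | linePoint v (a v) t ∈ K} ∩ Icc (s - 1 / 8) (s + 1 / 8))

/-- HK/PIG: pigeonholing over scales, for coverings by balls.  `J i` is the scale of the ball `i`. -/
def S_pig : Prop := ∃ w : ℕ → ℝ, (∀ j, 0 < w j) ∧ (∀ j, w j = w 0 / ((j : ℝ) + 1) ^ 2) ∧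
  ∀ (d : ℕ) (V : Set (Vec d)) (a : Vec d → Vec d) (K : Set (Space d)) (s lam : ℝ),
  0 < lam → volume V ≠ 0 → volume V ≠ ⊤ →
  (∀ v ∈ V, ENNReal.ofReal lam ≤
      volume ({t : ℝ | linePoint v (a v) t ∈ K} ∩ Icc (s - 1 / 8) (s + 1 / 8))) →
  ∀ (x : ℕ → Space d) (r : ℕ → ℝ) (J : ℕ → ℕ), K ⊆ ⋃ i, closedBall (x i) (r i) →
  ∃ j : ℕ, ENNReal.ofReal (w j) * volume V ≤ volume {v ∈ V | ENNReal.ofReal (w j * lam) ≤
    volume ({t : ℝ | linePoint v (a v) t ∈ ⋃ i, ⋃ (_ : J i = j), closedBall (x i) (r i)} ∩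
      Icc (s - 1 / 8) (s + 1 / 8))}

end Pool.Agent.N240.HK
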