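import Pool.Agent.N240.KT.Main
import Pool.Agent.N240.HK.Stm

/-!
# Project HK: the estimate at one scale
-/

set_option autoImplicit false

open MeasureTheory Set Metric Filter Topology

namespace Pool.Agent.N240.HK

/-- the bound for unions, at one scale, for families of bounded doubling and their subfamilies -/
theorem est (d : ℕ) (hd : 1 ≤ d) {K S ε : ℝ} (hK : 1 ≤ K) (hS : 0 ≤ S) (hε : 0 < ε) (hε1 : ε < 1) :
    ∃ c : ℝ, 0 < c ∧ ∀ δ : ℝ, 0 < δ → δ < 1 → ∀ (ι : Type) [Fintype ι] (v β : ι → Vec d) (h : ι → ℝ),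
      (∀ i, ‖v i‖ ≤ 1) → (∀ i, |h i| ≤ S) → (∀ i j, i ≠ j → δ ≤ ‖dir (v i) - dir (v j)‖) →
      (∃ Z : Finset (Vec d × Vec d), (Z.card : ℝ) ≤ K * Fintype.card ι ∧
        ∀ i j, ∃ z ∈ Z, ‖v i + v j - z.1‖ ≤ δ ∧ ‖β i + β j - z.2‖ ≤ δ) →
      ∀ (J : Finset ι) (X : Set (Space d)) (lam : ℝ), 0 ≤ lam → lam ≤ 1 →
      (∀ i ∈ J, ENNReal.ofReal (lam * δ ^ d) ≤
        volume (tube δ (dir (v i)) (linePoint (v i) (β i) (h i)) ∩ X)) →
      ENNReal.ofReal (c * lam ^ (d + 1) * δ ^ d * (J.card : ℝ) ^ (1 - ε)) ≤ volume X := by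
  have hd0 : (0 : ℝ) < d := by exact_mod_cast hd
  set q : ℝ := 1 + 1 / (d * (1 - ε)) with hq
  have he : 0 < 1 - ε := by linarith
  have hqd : ((d : ℝ) + 1) / d < q := by
    rw [hq, add_div, div_self hd0.ne']
    have : 1 / (d : ℝ) < 1 / (d * (1 - ε)) := by
      apply one_div_lt_one_div_of_lt (by positivity)
      nlinarith
    linarith
  have hq1 : 1 < q := by
    have : (1 : ℝ) ≤ ((d : ℝ) + 1) / d := by rw [le_div_iff₀ hd0]; linarith
    linarith
  obtain ⟨C, hC, hmain⟩ := Pool.Agent.N250.GAP.roundL (d := d) hd hK hS hqd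
  have hc0 : 0 < min 1 ((1 / C) ^ (d + 1)) := lt_min one_pos (by positivity)
  refine ⟨min 1 ((1 / C) ^ (d + 1)), hc0, ?_⟩
  intro δ hδ hδ1 ι _ v β h hA1 hA2 hA3 hD J X lam hl hl1 hX
  obtain ⟨Z, hZ, hZ'⟩ := hD
  have hmain' := hmain δ hδ hδ1 ι v (fun i => β i + h i • v i) h hA1 hA2 hA3
      ⟨Z, hZ, fun i j => by
        obtain ⟨z, hz, h1, h2⟩ := hZ' i j
        refine ⟨z, hz, h1, ?_⟩
        simpa using h2⟩ J
  rcases J.eq_empty_or_nonempty with hJ | hJ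
  · rw [hJ, Finset.card_empty, Nat.cast_zero, Real.zero_rpow he.ne', mul_zero, ENNReal.ofReal_zero]
    exact bot_le
  have hN : (0 : ℝ) < J.card := by exact_mod_cast hJ.card_pos
  by_cases htop : volume X = ⊤
  · rw [htop]; exact le_top
  set E := toMeasurable volume X with hE
  have hEX : volume E = volume X := measure_toMeasurable X
  have h1 := Pool.Agent.N240.KT.sum_inter_le volume
    (fun i => tube δ (dir (v i)) (linePoint (v i) (β i) (h i)))
    (fun i => (Pool.Agent.H810R3.Tub.tube_closed δ _ _).measurableSet) J hq1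
    hmain' E (measurableSet_toMeasurable _ _)
  have h2 : ENNReal.ofReal (lam * (1 * δ ^ d) * J.card) ≤
      ∑ i ∈ J, volume (tube δ (dir (v i)) (linePoint (v i) (β i) (h i)) ∩ E) := by
    calc ENNReal.ofReal (lam * (1 * δ ^ d) * J.card)
        = ∑ i ∈ J, ENNReal.ofReal (lam * δ ^ d) := by
          rw [Finset.sum_const, nsmul_eq_mul, one_mul, mul_comm,
            ENNReal.ofReal_mul (by positivity), ENNReal.ofReal_natCast]
      _ ≤ _ := by
          apply Finset.sum_le_sum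
          intro i hi
          exact (hX i hi).trans (measure_mono
            (inter_subset_inter_right _ (subset_toMeasurable volume X)))
  have h3 := h2.trans h1
  rw [hEX] at h3
  have hm : volume X = ENNReal.ofReal (volume X).toReal := (ENNReal.ofReal_toReal htop).symm
  have hθ : 0 ≤ 1 - 1 / q := by
    have : 1 / q ≤ 1 := by rw [div_le_one (by linarith)]; exact hq1.le
    linarith
  have hB0 : 0 ≤ C * δ ^ ((d : ℝ) / q) * (J.card : ℝ) ^ (1 - 1 / (q * d)) :=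
    mul_nonneg (mul_nonneg hC.le (Real.rpow_nonneg hδ.le _)) (Real.rpow_nonneg hN.le _)
  have hM0 : 0 ≤ (volume X).toReal ^ (1 - 1 / q) := Real.rpow_nonneg ENNReal.toReal_nonneg _
  rw [hm, ENNReal.ofReal_rpow_of_nonneg ENNReal.toReal_nonneg hθ,
    ← ENNReal.ofReal_mul hB0, ENNReal.ofReal_le_ofReal_iff (mul_nonneg hB0 hM0)] at h3
  have h4 := Pool.Agent.N240.KT.real_part hd hε hε1 one_pos hC hq hδ hl hl1 hN
    ENNReal.toReal_nonneg h3
  rw [hm]
  exact ENNReal.ofReal_le_ofReal h4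

/-- the same for a subset of a finite set of slopes -/
theorem est' (d : ℕ) (hd : 1 ≤ d) {K S ε : ℝ} (hK : 1 ≤ K) (hS : 0 ≤ S) (hε : 0 < ε) (hε1 : ε < 1) :
    ∃ c : ℝ, 0 < c ∧ ∀ δ : ℝ, 0 < δ → δ < 1 → ∀ (J' J : Finset (Vec d)) (a : Vec d → Vec d) (s : ℝ),
      (∀ v ∈ J', ‖v‖ ≤ 1) → |s| ≤ S → (∀ v ∈ J', ∀ w ∈ J', v ≠ w → δ ≤ ‖dir v - dir w‖) →
      (∃ Z : Finset (Vec d × Vec d), (Z.card : ℝ) ≤ K * J'.card ∧
        ∀ v ∈ J', ∀ w ∈ J', ∃ z ∈ Z, ‖v + w - z.1‖ ≤ δ ∧ ‖a v + a w - z.2‖ ≤ δ) → J ⊆ J' →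
      ∀ (X : Set (Space d)) (lam : ℝ), 0 ≤ lam → lam ≤ 1 →
      (∀ v ∈ J, ENNReal.ofReal (lam * δ ^ d) ≤
        volume (tube δ (dir v) (linePoint v (a v) s) ∩ X)) →
      ENNReal.ofReal (c * lam ^ (d + 1) * δ ^ d * (J.card : ℝ) ^ (1 - ε)) ≤ volume X := by
  classical
  obtain ⟨c, hc, h⟩ := est d hd hK hS hε hε1
  refine ⟨c, hc, ?_⟩
  intro δ hδ hδ1 J' J a s hJ1 hs hJ2 hZ hJJ X lam hl hl1 hX
  obtain ⟨Z, hZ1, hZ2⟩ := hZ
  have key := h δ hδ hδ1 {v // v ∈ J'} (fun i => i.1) (fun i => a i.1) (fun _ => s)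
    (fun i => hJ1 i.1 i.2) (fun _ => hs)
    (fun i j hij => hJ2 i.1 i.2 j.1 j.2 (fun e => hij (Subtype.ext e)))
    ⟨Z, by rw [Fintype.card_coe]; exact hZ1, fun i j => hZ2 i.1 i.2 j.1 j.2⟩
    (Finset.univ.filter (fun i => i.1 ∈ J)) X lam hl hl1
    (fun i hi => hX i.1 (Finset.mem_filter.1 hi).2)
  have hcard : (Finset.univ.filter (fun i : {v // v ∈ J'} => i.1 ∈ J)).card = J.card := by
    rw [← Finset.card_map (Function.Embedding.subtype _)]
    congr 1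
    ext v
    simp only [Finset.mem_map, Finset.mem_filter, Finset.mem_univ, true_and,
      Function.Embedding.coe_subtype, Subtype.exists, exists_and_right, exists_eq_right]
    constructor
    · rintro ⟨_, h2⟩; exact h2
    · intro h1; exact ⟨hJJ h1, h1⟩
  rw [hcard] at key
  exact key

end Pool.Agent.N240.HK
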