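import Pool.Agent.N3.ST.T
import Pool.Agent.N240.HK.Stm

/-!
# Project HK: Minkowski dimension, for line sets whose sumset has box dimension `n - 1`

The bound for families of large additive energy is `Pool.Agent.N3.ST.T.gen` (project ST of helper3).
-/

set_option autoImplicit false

open MeasureTheory Set Metric Filter Topology

namespace Pool.Agent.N240.HK

/-- Cauchy-Schwarz: many coincidences -/
theorem coinc {ι α : Type} [Fintype ι] [DecidableEq ι] [DecidableEq α] (f : ι × ι → α)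
    (Z : Finset α) (hf : ∀ p, f p ∈ Z) :
    (Fintype.card ι) ^ 4 ≤ Z.card *
      (Finset.univ.filter (fun x : ι × ι × ι × ι => f (x.1, x.2.1) = f (x.2.2.1, x.2.2.2))).card := by
  classical
  set n : α → ℕ := fun z => (Finset.univ.filter (fun p : ι × ι => f p = z)).card with hn
  have h1 : ∑ z ∈ Z, n z = (Fintype.card ι) ^ 2 := by
    have h2 := Finset.card_eq_sum_card_fiberwise (f := f) (s := (Finset.univ : Finset (ι × ι)))
      (t := Z) (fun p _ => by rw [Finset.mem_coe]; exact hf p)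
    rw [Finset.card_univ, Fintype.card_prod] at h2
    rw [sq, h2]
  have h3 : ∑ z ∈ Z, n z ^ 2 =
      (Finset.univ.filter (fun x : ι × ι × ι × ι => f (x.1, x.2.1) = f (x.2.2.1, x.2.2.2))).card := by
    have h4 := Finset.card_eq_sum_card_fiberwise (f := fun x : ι × ι × ι × ι => f (x.1, x.2.1))
      (s := Finset.univ.filter (fun x : ι × ι × ι × ι => f (x.1, x.2.1) = f (x.2.2.1, x.2.2.2)))
      (t := Z) (fun p _ => by rw [Finset.mem_coe]; exact hf _)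
    rw [h4]
    refine Finset.sum_congr rfl fun z _ => ?_
    rw [sq, hn]
    simp only
    rw [← Finset.card_product]
    refine Finset.card_bij (fun q _ => (q.1.1, q.1.2, q.2.1, q.2.2)) ?_ ?_ ?_
    · rintro ⟨⟨a, b⟩, ⟨c, e⟩⟩ h
      simp only [Finset.mem_product, Finset.mem_filter, Finset.mem_univ, true_and] at h ⊢
      exact ⟨by rw [h.1, h.2], h.1⟩
    · rintro ⟨⟨a, b⟩, ⟨c, e⟩⟩ _ ⟨⟨a', b'⟩, ⟨c', e'⟩⟩ _ h
      simp only [Prod.mk.injEq] at h ⊢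
      exact ⟨⟨h.1, h.2.1⟩, h.2.2.1, h.2.2.2⟩
    · rintro ⟨a, b, c, e⟩ h
      simp only [Finset.mem_filter, Finset.mem_univ, true_and] at h
      refine ⟨((a, b), (c, e)), ?_, rfl⟩
      simp only [Finset.mem_product, Finset.mem_filter, Finset.mem_univ, true_and]
      exact ⟨h.2, by rw [← h.1, h.2]⟩
  have h5 := sq_sum_le_card_mul_sum_sq (s := Z) (f := n)
  rw [h1, h3] at h5
  calc (Fintype.card ι) ^ 4 = ((Fintype.card ι) ^ 2) ^ 2 := by ring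
    _ ≤ _ := h5

/-- The unit segment with slope `v`, position `β` and midpoint of height `h`. -/
def unitSegment {d : ℕ} (v β : Vec d) (h : ℝ) : Set (Space d) :=
  {y | ∃ s : ℝ, |s| ≤ 1 / 2 ∧ y = linePoint v β h + s • dir v}

theorem segment_nhd {d : ℕ} {δ : ℝ} (v β : Vec d) (h : ℝ) {X : Set (Space d)}
    (hX : unitSegment v β h ⊆ X) :
    tube δ (dir v) (linePoint v β h) ⊆ Metric.cthickening δ X := by
  intro y hy
  obtain ⟨h1, h2⟩ := hy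
  refine Metric.mem_cthickening_of_dist_le y (linePoint v β h +
    (inner ℝ (y - linePoint v β h) (dir v) : ℝ) • dir v) δ X (hX ⟨_, h1, rfl⟩) ?_
  rw [dist_eq_norm, ← sub_sub]
  exact h2

theorem num3 {d : ℕ} (hd : 1 ≤ d) {c η δ N z E : ℝ} (hc : 0 < c) (hη : 0 < η) (hδ : 0 < δ)
    (hN : 0 < N) (hz : 0 ≤ z) (h1 : c ≤ δ ^ d * N) (h2 : z ≤ δ ^ (-(d : ℝ) - d * η / 2))
    (h3 : N ^ 4 ≤ z * E) (h4 : δ ^ ((d : ℝ) * η / 2) ≤ c ^ (1 + η)) (hE : 0 ≤ E) :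
    N ^ (3 - η) ≤ E := by
  have hd0 : (0 : ℝ) < d := by exact_mod_cast hd
  have hdp : 0 < δ ^ d := by positivity
  have a1 : c ^ (1 + η) ≤ (δ ^ d * N) ^ (1 + η) := Real.rpow_le_rpow hc.le h1 (by linarith)
  have a2 : (δ ^ d * N) ^ (1 + η) = δ ^ ((d : ℝ) * (1 + η)) * N ^ (1 + η) := by
    rw [Real.mul_rpow hdp.le hN.le, ← Real.rpow_natCast δ d, ← Real.rpow_mul hδ.le]
  have a3 : δ ^ ((d : ℝ) * η / 2) ≤ δ ^ ((d : ℝ) * (1 + η)) * N ^ (1 + η) := by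
    rw [← a2]; exact h4.trans a1
  -- multiply by `δ^(-d - dη/2) ` ...
  have a4 : δ ^ (-(d : ℝ) - d * η / 2) ≤ N ^ (1 + η) := by
    have e1 : δ ^ (-(d : ℝ) - d * η / 2) =
        δ ^ ((d : ℝ) * η / 2) * δ ^ (-((d : ℝ) * (1 + η))) := by
      rw [← Real.rpow_add hδ]; congr 1; ring
    have e2 : N ^ (1 + η) = (δ ^ ((d : ℝ) * (1 + η)) * N ^ (1 + η)) * δ ^ (-((d : ℝ) * (1 + η))) := by
      have : δ ^ ((d : ℝ) * (1 + η)) * δ ^ (-((d : ℝ) * (1 + η))) = 1 := by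
        rw [← Real.rpow_add hδ, add_neg_cancel, Real.rpow_zero]
      calc N ^ (1 + η) = N ^ (1 + η) * 1 := (mul_one _).symm
        _ = N ^ (1 + η) * (δ ^ ((d : ℝ) * (1 + η)) * δ ^ (-((d : ℝ) * (1 + η)))) := by rw [this]
        _ = _ := by ring
    rw [e1, e2]
    exact mul_le_mul_of_nonneg_right a3 (Real.rpow_nonneg hδ.le _)
  have a5 : N ^ (4 : ℕ) ≤ N ^ (1 + η) * E :=
    h3.trans (mul_le_mul_of_nonneg_right (h2.trans a4) hE)
  have a6 : N ^ (4 : ℕ) = N ^ (1 + η) * N ^ (3 - η) := by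
    rw [← Real.rpow_add hN, ← Real.rpow_natCast]
    congr 1
    push_cast
    ring
  rw [a6] at a5
  exact le_of_mul_le_mul_left a5 (Real.rpow_pos_of_pos hN _)

theorem num4 {d : ℕ} {c c₀ C ε δ N : ℝ} (hc : 0 < c) (hc₀ : 0 < c₀) (hε : 0 < ε) (hε1 : ε ≤ 1)
    (hδ : 0 < δ) (hN : 0 < N) (h1 : c ≤ δ ^ d * N) (h2 : δ ^ d * N ≤ C) :
    c₀ * c * (max C 1)⁻¹ * δ ^ ((d : ℝ) * ε) ≤ c₀ * δ ^ d * N ^ (1 - ε) := by
  set D : ℝ := max C 1 with hD
  have hD1 : 1 ≤ D := le_max_right _ _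
  have hD0 : 0 < D := by linarith
  have hdp : 0 < δ ^ d := by positivity
  have a1 : D⁻¹ * δ ^ ((d : ℝ) * ε) ≤ N ^ (-ε) := by
    have b1 : N ≤ D * (δ ^ d)⁻¹ := by
      rw [← div_eq_mul_inv, le_div_iff₀ hdp]
      calc N * δ ^ d = δ ^ d * N := mul_comm _ _
        _ ≤ C := h2
        _ ≤ D := le_max_left _ _
    calc D⁻¹ * δ ^ ((d : ℝ) * ε) ≤ D ^ (-ε) * δ ^ ((d : ℝ) * ε) := by
          apply mul_le_mul_of_nonneg_right _ (Real.rpow_nonneg hδ.le _)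
          rw [← Real.rpow_neg_one D]
          exact Real.rpow_le_rpow_of_exponent_le hD1 (by linarith)
      _ = (D * (δ ^ d)⁻¹) ^ (-ε) := by
          rw [Real.mul_rpow hD0.le (by positivity), ← Real.rpow_natCast δ d, ← Real.rpow_neg hδ.le,
            ← Real.rpow_mul hδ.le]
          congr 2
          ring
      _ ≤ N ^ (-ε) := Real.rpow_le_rpow_of_nonpos hN b1 (by linarith)
  have a2 : N ^ (1 - ε) = N * N ^ (-ε) := by
    rw [sub_eq_add_neg, Real.rpow_add hN, Real.rpow_one]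
  calc c₀ * c * D⁻¹ * δ ^ ((d : ℝ) * ε) = c₀ * (c * (D⁻¹ * δ ^ ((d : ℝ) * ε))) := by ring
    _ ≤ c₀ * ((δ ^ d * N) * N ^ (-ε)) := by
        apply mul_le_mul_of_nonneg_left _ hc₀.le
        exact mul_le_mul h1 a1 (by positivity) (by positivity)
    _ = _ := by rw [a2]; ring

set_option maxHeartbeats 4000000 in
/-- the Minkowski dimension -/
theorem mink (hsep : S_sep) (d : ℕ) (hd : 1 ≤ d) (V : Set (Vec d)) (a : Vec d → Vec d)
    (h : Vec d → ℝ) (K : Set (Space d)) (S : ℝ) (hV1 : ∀ v ∈ V, ‖v‖ ≤ 1) (hV0 : volume V ≠ 0)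
    (hS : ∀ v ∈ V, |h v| ≤ S) (hK : ∀ v ∈ V, unitSegment v (a v) (h v) ⊆ K)
    (hZ : ∀ η : ℝ, 0 < η → ∀ᶠ δ in 𝓝[>] (0 : ℝ), ∃ Z : Finset (Vec d × Vec d),
      (Z.card : ℝ) ≤ δ ^ (-(d : ℝ) - η) ∧
      ∀ v ∈ V, ∀ w ∈ V, ∃ z ∈ Z, ‖v + w - z.1‖ ≤ δ ∧ ‖a v + a w - z.2‖ ≤ δ)
    (ε : ℝ) (hε : 0 < ε) :
    ∃ c : ℝ, 0 < c ∧ ∀ δ : ℝ, 0 < δ → δ < 1 →
      ENNReal.ofReal (c * δ ^ ε) ≤ volume (Metric.cthickening δ K) := by
  classical
  have hd0 : (0 : ℝ) < d := by exact_mod_cast hd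
  set ε' : ℝ := min (ε / d) (1 / 2) with hε'
  have hε'0 : 0 < ε' := lt_min (by positivity) (by norm_num)
  have hε'1 : ε' < 1 := lt_of_le_of_lt (min_le_right _ _) (by norm_num)
  have hdε : (d : ℝ) * ε' ≤ ε := by
    calc (d : ℝ) * ε' ≤ d * (ε / d) := mul_le_mul_of_nonneg_left (min_le_left _ _) hd0.le
      _ = ε := by field_simp
  obtain ⟨η, c₀, hη, hc₀, hgen⟩ := Pool.Agent.N3.ST.T.gen
    (Pool.Agent.N3.ST.Q.main Pool.Agent.N3.ST.P.main) d hd (max S 1) ε' 2 (le_max_right _ _)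
    hε'0 hε'1 (by norm_num)
  obtain ⟨C, hC, hsep⟩ := hsep d
  have hVt : volume V ≠ ⊤ := by
    refine ne_top_of_le_ne_top (b := volume (closedBall (0 : Vec d) 1))
      measure_closedBall_lt_top.ne (measure_mono ?_)
    intro v hv
    rw [mem_closedBall, dist_zero_right]
    exact hV1 v hv
  set m₀ : ℝ := (volume V).toReal with hm₀
  have hm₀0 : 0 < m₀ := ENNReal.toReal_pos hV0 hVt
  have hm₀e : volume V = ENNReal.ofReal m₀ := (ENNReal.ofReal_toReal hVt).symm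
  set c₁ : ℝ := m₀ / C with hc₁
  have hc₁0 : 0 < c₁ := by positivity
  -- small scales
  have hev1 := hZ ((d : ℝ) * η / 2) (by positivity)
  have hev2 : ∀ᶠ δ in 𝓝[>] (0 : ℝ), δ ^ ((d : ℝ) * η / 2) ≤ c₁ ^ (1 + η) := by
    have h1 : Tendsto (fun δ : ℝ => δ ^ ((d : ℝ) * η / 2)) (𝓝[>] 0) (𝓝 0) := by
      have h2 := (Real.continuousAt_rpow_const 0 ((d : ℝ) * η / 2)
        (Or.inr (by positivity))).tendsto
      rw [Real.zero_rpow (by positivity)] at h2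
      exact h2.mono_left nhdsWithin_le_nhds
    have h3 : (0 : ℝ) < c₁ ^ (1 + η) := Real.rpow_pos_of_pos hc₁0 _
    filter_upwards [h1.eventually (gt_mem_nhds h3)] with δ hδ using hδ.le
  obtain ⟨δ₀, hδ₀, hgood⟩ := mem_nhdsGT_iff_exists_Ioo_subset.1 (hev1.and hev2)
  rw [mem_Ioi] at hδ₀
  have hVne : V.Nonempty := by
    rw [Set.nonempty_iff_ne_empty]
    rintro rfl
    exact hV0 measure_empty
  obtain ⟨v₀, hv₀⟩ := hVne
  set p₀ : Space d := linePoint v₀ (a v₀) (h v₀) with hp₀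
  have hp₀K : p₀ ∈ K := hK v₀ hv₀ ⟨0, by norm_num, by rw [zero_smul, add_zero]⟩
  set c₄ : ℝ := (volume (closedBall p₀ δ₀)).toReal with hc₄
  have hc₄0 : 0 < c₄ := ENNReal.toReal_pos (measure_closedBall_pos _ _ hδ₀).ne'
    measure_closedBall_lt_top.ne
  set c₅ : ℝ := c₀ * c₁ * (max C 1)⁻¹ with hc₅
  have hmx : 0 < max C 1 := lt_max_of_lt_left hC
  have hc₅0 : 0 < c₅ := by positivity
  refine ⟨min c₄ c₅, lt_min hc₄0 hc₅0, ?_⟩
  intro δ hδ hδ1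
  rcases lt_or_ge δ δ₀ with hlt | hge
  swap
  · have h1 : closedBall p₀ δ₀ ⊆ Metric.cthickening δ K :=
      (closedBall_subset_closedBall hge).trans (Metric.closedBall_subset_cthickening hp₀K δ)
    refine le_trans ?_ (measure_mono h1)
    rw [← ENNReal.ofReal_toReal (measure_closedBall_lt_top (μ := (volume : Measure (Space d)))
      (x := p₀) (r := δ₀)).ne]
    apply ENNReal.ofReal_le_ofReal
    calc min c₄ c₅ * δ ^ ε ≤ c₄ * 1 :=
          mul_le_mul (min_le_left _ _) (Real.rpow_le_one hδ.le hδ1.le hε.le)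
            (Real.rpow_nonneg hδ.le _) hc₄0.le
      _ = _ := mul_one _
  obtain ⟨⟨Z, hZ1, hZ2⟩, hsmall⟩ := hgood ⟨hδ, hlt⟩
  obtain ⟨J, -, hJV, hJs, hJm, hJC⟩ := hsep δ hδ hδ1 V ∅ hV1 (by simp) (by simp)
  have hdp : 0 < δ ^ d := by positivity
  have hJm' : m₀ ≤ C * δ ^ d * J.card := by
    rw [hm₀e] at hJm
    exact (ENNReal.ofReal_le_ofReal_iff (mul_nonneg (mul_nonneg hC.le hdp.le)
      (Nat.cast_nonneg _))).1 hJm
  have hN0 : (0 : ℝ) < J.card := by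
    by_contra hcon
    have h1 : (J.card : ℝ) = 0 := le_antisymm (not_lt.1 hcon) (Nat.cast_nonneg _)
    rw [h1, mul_zero] at hJm'
    linarith
  have hJm2 : c₁ ≤ δ ^ d * J.card := by
    rw [hc₁, div_le_iff₀ hC]
    linarith
  -- the energy
  have hchoice : ∀ p : {v // v ∈ J} × {v // v ∈ J}, ∃ z ∈ Z,
      ‖p.1.1 + p.2.1 - z.1‖ ≤ δ ∧ ‖a p.1.1 + a p.2.1 - z.2‖ ≤ δ := fun p =>
    hZ2 p.1.1 (hJV p.1.2) p.2.1 (hJV p.2.2)
  choose f hf1 hf2 using hchoice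
  have hco := coinc f Z hf1
  set Q := Finset.univ.filter (fun x : {v // v ∈ J} × {v // v ∈ J} × {v // v ∈ J} × {v // v ∈ J} =>
    f (x.1, x.2.1) = f (x.2.2.1, x.2.2.2)) with hQ
  have hcardJ : Fintype.card {v // v ∈ J} = J.card := Fintype.card_coe J
  have hQsub : (Q : Set ({v // v ∈ J} × {v // v ∈ J} × {v // v ∈ J} × {v // v ∈ J})) ⊆
      {x | ‖x.1.1 + x.2.1.1 - x.2.2.1.1 - x.2.2.2.1‖ ≤ 2 * δ ∧
      ‖((a x.1.1 + h x.1.1 • x.1.1) - h x.1.1 • x.1.1) +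
        ((a x.2.1.1 + h x.2.1.1 • x.2.1.1) - h x.2.1.1 • x.2.1.1) -
        ((a x.2.2.1.1 + h x.2.2.1.1 • x.2.2.1.1) - h x.2.2.1.1 • x.2.2.1.1) -
        ((a x.2.2.2.1 + h x.2.2.2.1 • x.2.2.2.1) - h x.2.2.2.1 • x.2.2.2.1)‖ ≤ 2 * δ} := by
    rintro ⟨i, j, k, l⟩ hx
    rw [Finset.mem_coe, hQ, Finset.mem_filter] at hx
    have hx2 : f (i, j) = f (k, l) := hx.2
    obtain ⟨u1, u2⟩ := hf2 (i, j)
    obtain ⟨w1, w2⟩ := hf2 (k, l)
    rw [hx2] at u1 u2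
    simp only [mem_setOf_eq, add_sub_cancel_right]
    constructor
    · have e : i.1 + j.1 - k.1 - l.1 = (i.1 + j.1 - (f (k, l)).1) - (k.1 + l.1 - (f (k, l)).1) := by
        abel
      rw [e]
      have := norm_sub_le (i.1 + j.1 - (f (k, l)).1) (k.1 + l.1 - (f (k, l)).1)
      linarith
    · have e : a i.1 + a j.1 - a k.1 - a l.1 =
          (a i.1 + a j.1 - (f (k, l)).2) - (a k.1 + a l.1 - (f (k, l)).2) := by
        abel
      rw [e]
      have := norm_sub_le (a i.1 + a j.1 - (f (k, l)).2) (a k.1 + a l.1 - (f (k, l)).2)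
      linarith
  have hQcard : (Q.card : ℝ) ≤ ((Set.ncard
      {x : {v // v ∈ J} × {v // v ∈ J} × {v // v ∈ J} × {v // v ∈ J} |
      ‖x.1.1 + x.2.1.1 - x.2.2.1.1 - x.2.2.2.1‖ ≤ 2 * δ ∧
      ‖((a x.1.1 + h x.1.1 • x.1.1) - h x.1.1 • x.1.1) +
        ((a x.2.1.1 + h x.2.1.1 • x.2.1.1) - h x.2.1.1 • x.2.1.1) -
        ((a x.2.2.1.1 + h x.2.2.1.1 • x.2.2.1.1) - h x.2.2.1.1 • x.2.2.1.1) -
        ((a x.2.2.2.1 + h x.2.2.2.1 • x.2.2.2.1) - h x.2.2.2.1 • x.2.2.2.1)‖ ≤ 2 * δ} : ℕ) : ℝ) := by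
    have h1 := Set.ncard_le_ncard hQsub (Set.toFinite _)
    rw [Set.ncard_coe_finset] at h1
    exact_mod_cast h1
  have hen : ((Fintype.card {v // v ∈ J} : ℕ) : ℝ) ^ (3 - η) ≤ (Q.card : ℝ) := by
    rw [hcardJ]
    refine num3 hd hc₁0 hη hδ hN0 (z := (Z.card : ℝ)) (Nat.cast_nonneg _) hJm2 hZ1 ?_ hsmall
      (Nat.cast_nonneg _)
    rw [hcardJ] at hco
    exact_mod_cast hco
  have hvol := hgen δ hδ hδ1 {v // v ∈ J} (fun i => i.1) (fun i => a i.1 + h i.1 • i.1)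
    (fun i => h i.1) (fun i => hV1 i.1 (hJV i.2))
    (fun i => (hS i.1 (hJV i.2)).trans (le_max_left _ _))
    (fun i j hij => hJs i.1 i.2 j.1 j.2 (fun e => hij (Subtype.ext e)))
    (hen.trans hQcard)
  have hsub : (⋃ i : {v // v ∈ J}, tube δ (dir i.1) (linePoint i.1 (a i.1) (h i.1))) ⊆
      Metric.cthickening δ K :=
    iUnion_subset fun i => segment_nhd i.1 (a i.1) (h i.1) (hK i.1 (hJV i.2))
  refine le_trans (le_trans ?_ hvol) (measure_mono hsub)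
  rw [hcardJ]
  apply ENNReal.ofReal_le_ofReal
  refine le_trans ?_ (num4 (C := C) hc₁0 hc₀ hε'0 hε'1.le hδ hN0 hJm2 hJC)
  calc min c₄ c₅ * δ ^ ε ≤ c₅ * δ ^ ((d : ℝ) * ε') :=
        mul_le_mul (min_le_right _ _) (Real.rpow_le_rpow_of_exponent_ge hδ hδ1.le hdε)
          (Real.rpow_nonneg hδ.le _) hc₅0.le
    _ = _ := by rw [hc₅]

end Pool.Agent.N240.HK
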